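import Pool.Agent.H920.Fd.Place

/-!
# Tensor products with extensions of the field of constants
-/

set_option autoImplicit false
set_option linter.unusedSectionVars false

open Polynomial TensorProduct

namespace Pool.Agent.H920

noncomputable section

/-- an irreducible polynomial over an algebraically closed subfield stays irreducible -/
theorem irreducible_map_of_closed {k₀ κ : Type} [Field k₀] [Field κ] [Algebra k₀ κ]
    (hc : ∀ x : κ, IsIntegral k₀ x → ∃ c, algebraMap k₀ κ c = x) {f : k₀[X]} (hf : f.Monic)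
    (hi : Irreducible f) : Irreducible (f.map (algebraMap k₀ κ)) := by
  have hinj := Polynomial.map_injective (algebraMap k₀ κ) (algebraMap k₀ κ).injective
  rw [(hf.map (algebraMap k₀ κ)).irreducible_iff_natDegree]
  refine ⟨?_, ?_⟩
  · intro h
    have h1 : f = 1 := hinj (by rw [h, Polynomial.map_one])
    exact hi.not_isUnit (h1 ▸ isUnit_one)
  · intro a b ha hb hab
    have key : ∀ a : κ[X], a.Monic → a ∣ f.map (algebraMap k₀ κ) →
        ∃ a₀ : k₀[X], a₀.map (algebraMap k₀ κ) = a := by
      intro a ha hd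
      have h1 := integralClosure.mem_lifts_of_monic_of_dvd_map κ hf ha hd
      have h2 : a ∈ lifts (algebraMap k₀ κ) := by
        rw [lifts_iff_coeff_lifts] at h1 ⊢
        intro n
        obtain ⟨⟨x, hx⟩, hxn⟩ := h1 n
        obtain ⟨c, hc'⟩ := hc x hx
        exact ⟨c, hc'.trans hxn⟩
      obtain ⟨a₀, ha₀⟩ := h2
      exact ⟨a₀, ha₀⟩
    obtain ⟨a₀, rfl⟩ := key a ha ⟨b, hab.symm⟩
    obtain ⟨b₀, rfl⟩ := key b hb ⟨_, (mul_comm _ _).trans hab |>.symm⟩
    have h1 : a₀ * b₀ = f := hinj (by rw [Polynomial.map_mul, hab])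
    rw [natDegree_map, natDegree_map]
    rcases hi.isUnit_or_isUnit h1.symm with h | h
    · exact Or.inl (natDegree_eq_zero_of_isUnit h)
    · exact Or.inr (natDegree_eq_zero_of_isUnit h)

theorem isField_tensor {k₀ κ L : Type} [Field k₀] [Finite k₀] [Field κ] [Algebra k₀ κ] [Field L]
    [Algebra k₀ L] [Finite L] (hc : ∀ x : κ, IsIntegral k₀ x → ∃ c, algebraMap k₀ κ c = x) :
    IsField (κ ⊗[k₀] L) := by
  haveI : FiniteDimensional k₀ L := inferInstance
  obtain ⟨α, hα⟩ := Field.exists_primitive_element_of_finite_top k₀ L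
  have hint : IsIntegral k₀ α := Algebra.IsIntegral.isIntegral α
  let f := minpoly k₀ α
  have hirr : Irreducible (f.map (algebraMap k₀ κ)) :=
    irreducible_map_of_closed hc (minpoly.monic hint) (minpoly.irreducible hint)
  let φ : κ[X] →ₐ[κ] κ ⊗[k₀] L := aeval (1 ⊗ₜ[k₀] α)
  have hφ : Function.Surjective φ := by
    intro x
    induction x using TensorProduct.induction_on with
    | zero => exact ⟨0, map_zero _⟩
    | add x y hx hy =>
      obtain ⟨a, rfl⟩ := hx
      obtain ⟨b, rfl⟩ := hy
      exact ⟨a + b, map_add _ _ _⟩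
    | tmul c l =>
      have h1 : l ∈ (IntermediateField.adjoin k₀ {α} : IntermediateField k₀ L) := by
        rw [hα]
        exact IntermediateField.mem_top
      rw [← IntermediateField.mem_toSubalgebra,
        IntermediateField.adjoin_simple_toSubalgebra_of_isAlgebraic hint.isAlgebraic,
        Algebra.adjoin_singleton_eq_range_aeval] at h1
      obtain ⟨g, rfl⟩ := h1
      refine ⟨C c * g.map (algebraMap k₀ κ), ?_⟩
      change aeval (1 ⊗ₜ[k₀] α) (C c * g.map (algebraMap k₀ κ)) = c ⊗ₜ[k₀] (aeval α g)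
      rw [map_mul, aeval_C, aeval_map_algebraMap]
      have h2 : aeval (1 ⊗ₜ[k₀] α : κ ⊗[k₀] L) g = 1 ⊗ₜ[k₀] (aeval α g) :=
        Polynomial.aeval_algHom_apply
          (Algebra.TensorProduct.includeRight : L →ₐ[k₀] κ ⊗[k₀] L) α g
      rw [h2, Algebra.TensorProduct.algebraMap_apply, Algebra.TensorProduct.tmul_mul_tmul,
        mul_one, one_mul]
      rfl
  haveI : Nontrivial (κ ⊗[k₀] L) := inferInstance
  have hker : RingHom.ker φ = Ideal.span {f.map (algebraMap k₀ κ)} := by
    have hmax : (Ideal.span {f.map (algebraMap k₀ κ)}).IsMaximal :=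
      PrincipalIdealRing.isMaximal_of_irreducible hirr
    refine (hmax.eq_of_le (RingHom.ker_ne_top _) ?_).symm
    rw [Ideal.span_singleton_le_iff_mem, RingHom.mem_ker]
    change aeval (1 ⊗ₜ[k₀] α : κ ⊗[k₀] L) (f.map (algebraMap k₀ κ)) = 0
    rw [aeval_map_algebraMap]
    have h2 : aeval (1 ⊗ₜ[k₀] α : κ ⊗[k₀] L) f = 1 ⊗ₜ[k₀] (aeval α f) :=
      Polynomial.aeval_algHom_apply
        (Algebra.TensorProduct.includeRight : L →ₐ[k₀] κ ⊗[k₀] L) α f
    rw [h2, minpoly.aeval, TensorProduct.tmul_zero]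
  have hmax : (RingHom.ker φ).IsMaximal := by
    rw [hker]
    exact PrincipalIdealRing.isMaximal_of_irreducible hirr
  letI := Ideal.Quotient.field (RingHom.ker φ)
  exact (Ideal.quotientKerAlgEquivOfSurjective hφ).symm.toRingEquiv.toMulEquiv.isField
    (Field.toIsField _)

/-- the field of constants is algebraically closed -/
theorem conF_closed {κ : Type} [Field κ] {p : ℕ} [Fact p.Prime] [CharP κ p]
    (hfin : Finite (conF κ p)) (x : κ) (hx : IsIntegral (conF κ p) x) :
    ∃ c, algebraMap (conF κ p) κ c = x := by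
  let K := IntermediateField.adjoin (conF κ p) {x}
  haveI : FiniteDimensional (conF κ p) K := IntermediateField.adjoin.finiteDimensional hx
  haveI : Finite K := Module.finite_of_finite (conF κ p)
  have h1 := mem_conF_of_finite (p := p) (algebraMap K κ)
    (⟨x, IntermediateField.mem_adjoin_simple_self _ x⟩ : K)
  exact ⟨⟨x, h1⟩, rfl⟩

end

end Pool.Agent.H920
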