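import Pool.Agent.H920.St.EPt

/-!
# Finitely generated fields have finite fields of constants
-/

set_option autoImplicit false
set_option linter.unusedSectionVars false

open Polynomial Matrix

namespace Pool.Agent.H920

noncomputable section

theorem conF_of_hom {E E' : Type} [Field E] [Field E'] {p : ℕ} [Fact p.Prime] [CharP E p]
    [CharP E' p] (f : E →+* E') (h : Finite (conF E' p)) : Finite (conF E p) := by
  refine Finite.of_injective (β := conF E' p) (fun e => ⟨f e.1, fun n => ?_⟩) ?_
  · obtain ⟨a, ha⟩ := e.2 n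
    exact ⟨f a, by rw [← map_pow, ha]⟩
  · intro a b hab
    exact Subtype.ext (f.injective (congrArg Subtype.val hab))

/-! ### Rational functions -/

section RatFunc

variable {F : Type} [Field F]

lemma num_pow_assoc (a : RatFunc F) (q : ℕ) :
    Associated (a ^ q).num (a.num ^ q) ∧ Associated (a ^ q).denom (a.denom ^ q) := by
  have h1 : (a ^ q).num * a.denom ^ q = a.num ^ q * (a ^ q).denom := by
    rw [RatFunc.num_mul_eq_mul_denom_iff (pow_ne_zero _ (RatFunc.denom_ne_zero a)), map_pow,
      map_pow, ← div_pow, RatFunc.num_div_denom]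
  have c1 : IsCoprime (a ^ q).num (a ^ q).denom := RatFunc.isCoprime_num_denom _
  have c2 : IsCoprime (a.num ^ q) (a.denom ^ q) := (RatFunc.isCoprime_num_denom a).pow
  constructor
  · refine associated_of_dvd_dvd ?_ ?_
    · exact c1.dvd_of_dvd_mul_right (h1 ▸ dvd_mul_right _ _)
    · exact c2.dvd_of_dvd_mul_right (h1 ▸ dvd_mul_right _ _)
  · refine associated_of_dvd_dvd ?_ ?_
    · exact c1.symm.dvd_of_dvd_mul_left (h1 ▸ dvd_mul_left _ _)
    · exact c2.symm.dvd_of_dvd_mul_left (h1 ▸ dvd_mul_left _ _)

lemma natDegree_num_pow (a : RatFunc F) (q : ℕ) :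
    (a ^ q).num.natDegree = q * a.num.natDegree := by
  rw [natDegree_eq_of_degree_eq (degree_eq_degree_of_associated (num_pow_assoc a q).1),
    natDegree_pow]

lemma natDegree_denom_pow (a : RatFunc F) (q : ℕ) :
    (a ^ q).denom.natDegree = q * a.denom.natDegree := by
  rw [natDegree_eq_of_degree_eq (degree_eq_degree_of_associated (num_pow_assoc a q).2),
    natDegree_pow]

lemma exists_C_of_natDegree (a : RatFunc F) (h1 : a.num.natDegree = 0)
    (h2 : a.denom.natDegree = 0) : ∃ c : F, RatFunc.C c = a := by
  obtain ⟨x, hx⟩ := natDegree_eq_zero.1 h1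
  obtain ⟨y, hy⟩ := natDegree_eq_zero.1 h2
  refine ⟨x / y, ?_⟩
  rw [map_div₀]
  have := RatFunc.num_div_denom a
  rwa [← hx, ← hy, RatFunc.algebraMap_C, RatFunc.algebraMap_C] at this

variable {p : ℕ} [Fact p.Prime] [CharP F p]

theorem conF_ratFunc (h : Finite (conF F p)) (hR : CharP (RatFunc F) p) :
    Finite (conF (RatFunc F) p) := by
  have key : ∀ e : conF (RatFunc F) p, ∃ c : conF F p, RatFunc.C c.1 = e.1 := by
    intro e
    have h0 : ∀ m : ℕ, (∀ n, p ^ n ∣ m) → m = 0 := by
      intro m hm
      by_contra h0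
      have := Nat.le_of_dvd (Nat.pos_of_ne_zero h0) (hm m)
      exact absurd this (not_le.2 (Nat.lt_pow_self (Fact.out : p.Prime).one_lt))
    have hp0 : ∀ n, p ^ n ≠ 0 := fun n => pow_ne_zero _ (Fact.out : p.Prime).ne_zero
    have h1 : e.1.num.natDegree = 0 := h0 _ fun n => by
      obtain ⟨a, ha⟩ := e.2 n
      rw [← ha, natDegree_num_pow]
      exact dvd_mul_right _ _
    have h2 : e.1.denom.natDegree = 0 := h0 _ fun n => by
      obtain ⟨a, ha⟩ := e.2 n
      rw [← ha, natDegree_denom_pow]
      exact dvd_mul_right _ _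
    obtain ⟨c, hc⟩ := exists_C_of_natDegree e.1 h1 h2
    refine ⟨⟨c, fun n => ?_⟩, hc⟩
    obtain ⟨a, ha⟩ := e.2 n
    have h3 : a.num.natDegree = 0 := by
      have := h1
      rw [← ha, natDegree_num_pow] at this
      exact (mul_eq_zero.1 this).resolve_left (hp0 n)
    have h4 : a.denom.natDegree = 0 := by
      have := h2
      rw [← ha, natDegree_denom_pow] at this
      exact (mul_eq_zero.1 this).resolve_left (hp0 n)
    obtain ⟨b, hb⟩ := exists_C_of_natDegree a h3 h4
    refine ⟨b, RatFunc.C_injective ?_⟩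
    rw [map_pow, hb, ha, hc]
  choose g hg using key
  refine Finite.of_injective g fun a b hab => Subtype.ext ?_
  rw [← hg a, ← hg b, hab]

end RatFunc

/-! ### Finite extensions -/

theorem charpoly_pow_pp {n : Type} [DecidableEq n] [Fintype n] {K : Type} [Field K] {p : ℕ}
    [hp : Fact p.Prime] [CharP K p] (M : Matrix n n K) (k : ℕ) :
    (M ^ p ^ k).charpoly = M.charpoly.map (iterateFrobenius K p k) := by
  haveI : ExpChar K p := ExpChar.prime hp.out
  cases (isEmpty_or_nonempty n).symm
  · have hp0 : 0 < p ^ k := pow_pos hp.out.pos _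
    refine expand_injective hp0 ?_
    rw [← map_expand, map_iterateFrobenius_expand]
    unfold charpoly
    rw [AlgHom.map_det, ← coe_detMonoidHom, ← (detMonoidHom : Matrix n n K[X] →* K[X]).map_pow]
    apply congr_arg det
    refine matPolyEquiv.injective ?_
    rw [map_pow, matPolyEquiv_charmatrix, sub_pow_char_pow_of_commute, ← C_pow]
    · exact (id (matPolyEquiv_eq_X_pow_sub_C (p ^ k) M) :)
    · exact (C M).commute_X
  · simp [Matrix.charpoly, Matrix.det_isEmpty]

theorem finite_of_forall_root {C E : Type} [Field C] [Finite C] [Field E] [Algebra C E] (N : ℕ)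
    (S : Set E) (h : ∀ e ∈ S, ∃ f : C[X], f ≠ 0 ∧ f.natDegree ≤ N ∧ aeval e f = 0) : S.Finite := by
  classical
  have h1 : Finite (degreeLT C (N + 1)) := Finite.of_equiv _ (degreeLTEquiv C (N + 1)).symm.toEquiv
  have h2 : (degreeLT C (N + 1) : Set C[X]).Finite := h1
  refine (h2.biUnion (t := fun f => {e : E | f ≠ 0 ∧ aeval e f = 0}) ?_).subset ?_
  · intro f _
    by_cases hf : f = 0
    · simp [hf]
    · refine ((f.map (algebraMap C E)).roots.toFinset.finite_toSet).subset ?_
      rintro e ⟨_, he⟩
      rw [Finset.mem_coe, Multiset.mem_toFinset, mem_roots ((Polynomial.map_ne_zero_iff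
        (algebraMap C E).injective).2 hf), IsRoot.def, eval_map_algebraMap]
      exact he
  · intro e he
    obtain ⟨f, hf, hd, h0⟩ := h e he
    refine Set.mem_biUnion (x := f) ?_ ⟨hf, h0⟩
    rw [SetLike.mem_coe, mem_degreeLT]
    refine degree_le_natDegree.trans_lt ?_
    exact_mod_cast Nat.lt_succ_of_le hd

theorem conF_finite_ext {F E : Type} [Field F] [Field E] [Algebra F E] [Module.Finite F E] {p : ℕ}
    [hp : Fact p.Prime] [CharP F p] [CharP E p] (h : Finite (conF F p)) : Finite (conF E p) := by
  classical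
  haveI : ExpChar F p := ExpChar.prime hp.out
  let b := Module.finBasis F E
  letI : Algebra (conF F p) E := ((algebraMap F E).comp (conF F p).subtype).toAlgebra
  refine finite_of_forall_root (C := conF F p) (Module.finrank F E) (conF E p : Set E) ?_
  intro e he
  have h1 : ∀ i, (Algebra.leftMulMatrix b e).charpoly.coeff i ∈ conF F p := by
    intro i n
    obtain ⟨a, ha⟩ := he n
    refine ⟨(Algebra.leftMulMatrix b a).charpoly.coeff i, ?_⟩
    rw [← ha, map_pow, charpoly_pow_pp, coeff_map]
    rfl
  have h2 : (Algebra.leftMulMatrix b e).charpoly ∈ lifts (conF F p).subtype := by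
    rw [lifts_iff_coeff_lifts]
    intro i
    exact ⟨⟨_, h1 i⟩, rfl⟩
  obtain ⟨f, hf, hdeg, hmon⟩ := lifts_and_natDegree_eq_and_monic h2
    (Matrix.charpoly_monic _)
  refine ⟨f, hmon.ne_zero, ?_, ?_⟩
  · rw [hdeg, Matrix.charpoly_natDegree_eq_dim, Fintype.card_fin]
  · have h3 : aeval e (Algebra.leftMulMatrix b e).charpoly = 0 := by
      apply Algebra.leftMulMatrix_injective b
      rw [map_zero, ← Polynomial.aeval_algHom_apply, Matrix.aeval_self_charpoly]
    rw [← hf] at h3
    rw [aeval_def] at h3 ⊢
    rw [eval₂_map] at h3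
    exact h3

theorem conF_finite (F₀ E : Type) [Field F₀] [Finite F₀] [Field E] [Algebra F₀ E]
    [Algebra.EssFiniteType F₀ E] (p : ℕ) [hp : Fact p.Prime] [CharP E p] : Finite (conF E p) := by
  have key : ∀ [CharP (⊤ : IntermediateField F₀ E) p],
      Finite (conF (⊤ : IntermediateField F₀ E) p) := by
    refine IntermediateField.induction_on_adjoin_fg (F := F₀) (E := E)
      (fun K => ∀ [CharP K p], Finite (conF K p)) ?_ ?_ ⊤ (IntermediateField.fg_top F₀ E)
    · intro hc
      haveI : Finite (⊥ : IntermediateField F₀ E) :=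
        Finite.of_equiv F₀ (IntermediateField.botEquiv F₀ E).symm.toEquiv
      infer_instance
    · intro K x ih hc
      haveI : CharP K p := (algebraMap K E).charP (algebraMap K E).injective p
      haveI : CharP (IntermediateField.adjoin K {x}) p := hc
      specialize ih
      by_cases hx : IsAlgebraic K x
      · haveI : FiniteDimensional K (IntermediateField.adjoin K {x}) :=
          IntermediateField.adjoin.finiteDimensional hx.isIntegral
        exact conF_finite_ext (F := K) (E := IntermediateField.adjoin K {x}) ih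
      · let φ := RatFunc.algEquivOfTranscendental (K := K) x hx
        haveI : CharP (RatFunc K) p := (φ.toRingEquiv.toRingHom).charP φ.injective p
        exact conF_of_hom φ.symm.toRingEquiv.toRingHom (conF_ratFunc ih inferInstance)
  haveI : CharP (⊤ : IntermediateField F₀ E) p :=
    (algebraMap (⊤ : IntermediateField F₀ E) E).charP
      (algebraMap (⊤ : IntermediateField F₀ E) E).injective p
  exact conF_of_hom (IntermediateField.topEquiv (F := F₀) (E := E)).symm.toRingEquiv.toRingHom key

end

end Pool.Agent.H920
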