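import Pool.Agent.H920.Fd.Cst

/-!
# Finitely generated fields have places with finite residue field
-/

set_option autoImplicit false
set_option linter.unusedSectionVars false

open Polynomial

namespace Pool.Agent.H920

noncomputable section

/-- `ι : A → E` is a valuation ring with place `φ` -/
structure IsPl {E A k : Type} [Field E] [CommRing A] [Field k] (ι : A →+* E) (φ : A →+* k) :
    Prop where
  inj : Function.Injective ι
  val : ∀ x : E, (∃ a, ι a = x) ∨ (∃ a, ι a = x⁻¹)
  loc : ∀ a, φ a ≠ 0 → IsUnit a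

/-- existence of a place with finite residue field -/
def HasPl (E : Type) [Field E] : Prop :=
  ∃ (A : Type) (_ : CommRing A) (k : Type) (_ : Field k) (ι : A →+* E) (φ : A →+* k),
    Finite k ∧ IsPl ι φ

theorem IsPl.comp {E O F A k : Type} [Field E] [CommRing O] [Field F] [CommRing A] [Field k]
    {ι : O →+* E} {φ : O →+* F} (h : IsPl ι φ) {ι' : A →+* F} {φ' : A →+* k} (h' : IsPl ι' φ') :
    IsPl ((ι.comp (RingHom.fst O A)).comp
        (RingHom.eqLocus (φ.comp (RingHom.fst O A)) (ι'.comp (RingHom.snd O A))).subtype)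
      ((φ'.comp (RingHom.snd O A)).comp
        (RingHom.eqLocus (φ.comp (RingHom.fst O A)) (ι'.comp (RingHom.snd O A))).subtype) where
  inj := by
    refine (injective_iff_map_eq_zero _).2 ?_
    rintro ⟨⟨o, a⟩, hoa⟩ h0
    have h1 : ι o = 0 := h0
    have h2 : o = 0 := h.inj (by rw [h1, map_zero])
    have h3 : φ o = ι' a := hoa
    have h4 : a = 0 := h'.inj (by rw [← h3, h2, map_zero, map_zero])
    exact Subtype.ext (Prod.ext h2 h4)
  val := by
    have key : ∀ x : E, (∃ o, ι o = x) → (∃ a, ((ι.comp (RingHom.fst O A)).comp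
        (RingHom.eqLocus (φ.comp (RingHom.fst O A)) (ι'.comp (RingHom.snd O A))).subtype) a = x) ∨
        (∃ a, ((ι.comp (RingHom.fst O A)).comp
        (RingHom.eqLocus (φ.comp (RingHom.fst O A)) (ι'.comp (RingHom.snd O A))).subtype) a
          = x⁻¹) := by
      rintro x ⟨o, ho⟩
      rcases h'.val (φ o) with ⟨a, ha⟩ | ⟨a, ha⟩
      · exact Or.inl ⟨⟨(o, a), ha.symm⟩, ho⟩
      · by_cases hc : φ o = 0
        · refine Or.inl ⟨⟨(o, 0), ?_⟩, ho⟩
          change φ o = ι' 0
          rw [hc, map_zero]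
        · obtain ⟨u, hu⟩ := h.loc o hc
          have h1 : o * (u⁻¹ : Oˣ) = 1 := by rw [← hu, Units.mul_inv]
          refine Or.inr ⟨⟨((u⁻¹ : Oˣ), a), ?_⟩, ?_⟩
          · change φ (u⁻¹ : Oˣ) = ι' a
            rw [ha]
            apply eq_inv_of_mul_eq_one_right
            rw [← map_mul, h1, map_one]
          · change ι (u⁻¹ : Oˣ) = x⁻¹
            apply eq_inv_of_mul_eq_one_right
            rw [← ho, ← map_mul, h1, map_one]
    intro x
    rcases h.val x with h1 | h1
    · exact key x h1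
    · have := key x⁻¹ h1
      rw [inv_inv] at this
      exact this.symm
  loc := by
    rintro ⟨⟨o, a⟩, hoa⟩ h0
    have h3 : φ o = ι' a := hoa
    have h1 : φ' a ≠ 0 := h0
    obtain ⟨u, hu⟩ := h'.loc a h1
    have h2 : a * (u⁻¹ : Aˣ) = 1 := by rw [← hu, Units.mul_inv]
    have h4 : φ o ≠ 0 := by
      intro h5
      have h6 : ι' a * ι' (u⁻¹ : Aˣ) = 1 := by rw [← map_mul, h2, map_one]
      rw [← h3, h5, zero_mul] at h6
      exact zero_ne_one h6
    obtain ⟨v, hv⟩ := h.loc o h4
    have h5 : o * (v⁻¹ : Oˣ) = 1 := by rw [← hv, Units.mul_inv]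
    refine isUnit_iff_exists_inv.2 ⟨⟨((v⁻¹ : Oˣ), (u⁻¹ : Aˣ)), ?_⟩, Subtype.ext (Prod.ext h5 h2)⟩
    change φ (v⁻¹ : Oˣ) = ι' (u⁻¹ : Aˣ)
    refine mul_left_cancel₀ h4 ?_
    rw [← map_mul, h5, map_one, h3, ← map_mul, h2, map_one]

theorem IsPl.comap {E E' A k : Type} [Field E] [Field E'] [CommRing A] [Field k]
    (f : E →+* E') {ι' : A →+* E'} {φ' : A →+* k} (h' : IsPl ι' φ') :
    IsPl ((RingHom.snd A E).comp
        (RingHom.eqLocus (ι'.comp (RingHom.fst A E)) (f.comp (RingHom.snd A E))).subtype)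
      ((φ'.comp (RingHom.fst A E)).comp
        (RingHom.eqLocus (ι'.comp (RingHom.fst A E)) (f.comp (RingHom.snd A E))).subtype) where
  inj := by
    refine (injective_iff_map_eq_zero _).2 ?_
    rintro ⟨⟨a, x⟩, hax⟩ h0
    have h1 : x = 0 := h0
    have h3 : ι' a = f x := hax
    have h4 : a = 0 := h'.inj (by rw [h3, h1, map_zero, map_zero])
    exact Subtype.ext (Prod.ext h4 h1)
  val := by
    intro x
    rcases h'.val (f x) with ⟨a, ha⟩ | ⟨a, ha⟩
    · exact Or.inl ⟨⟨(a, x), ha⟩, rfl⟩
    · exact Or.inr ⟨⟨(a, x⁻¹), by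
        change ι' a = f x⁻¹
        rw [ha, map_inv₀]⟩, rfl⟩
  loc := by
    rintro ⟨⟨a, x⟩, hax⟩ h0
    have h3 : ι' a = f x := hax
    obtain ⟨u, hu⟩ := h'.loc a h0
    have h2 : a * (u⁻¹ : Aˣ) = 1 := by rw [← hu, Units.mul_inv]
    have h4 : f x * ι' (u⁻¹ : Aˣ) = 1 := by rw [← h3, ← map_mul, h2, map_one]
    have hx : x ≠ 0 := by
      rintro rfl
      rw [map_zero, zero_mul] at h4
      exact zero_ne_one h4
    refine isUnit_iff_exists_inv.2 ⟨⟨((u⁻¹ : Aˣ), x⁻¹), ?_⟩,
      Subtype.ext (Prod.ext h2 (mul_inv_cancel₀ hx))⟩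
    change ι' (u⁻¹ : Aˣ) = f x⁻¹
    rw [map_inv₀]
    exact eq_inv_of_mul_eq_one_right h4

theorem HasPl.comap {E E' : Type} [Field E] [Field E'] (f : E →+* E') (h : HasPl E') :
    HasPl E := by
  obtain ⟨A, _, k, _, ι, φ, hk, h⟩ := h
  exact ⟨_, inferInstance, k, inferInstance, _, _, hk, h.comap f⟩

theorem isPl_laurent (F : Type) [Field F] :
    IsPl (algebraMap (PowerSeries F) (LaurentSeries F)) (PowerSeries.constantCoeff (R := F)) where
  inj := IsFractionRing.injective _ _
  val := fun x => by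
    rcases ValuationRing.isInteger_or_isInteger (PowerSeries F) x with h | h
    · exact Or.inl h
    · exact Or.inr h
  loc := fun a h => PowerSeries.isUnit_iff_constantCoeff.2 (isUnit_iff_ne_zero.2 h)

theorem HasPl.ratFunc {F : Type} [Field F] (h : HasPl F) : HasPl (RatFunc F) := by
  obtain ⟨A, _, k, _, ι, φ, hk, h⟩ := h
  refine HasPl.comap (IsFractionRing.lift (K := RatFunc F)
    (FaithfulSMul.algebraMap_injective F[X] (LaurentSeries F))) ?_
  exact ⟨_, inferInstance, k, inferInstance, _, _, hk, (isPl_laurent F).comp h⟩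

theorem IsPl.isLocalRing {E A k : Type} [Field E] [CommRing A] [Field k]
    {ι : A →+* E} {φ : A →+* k} (h : IsPl ι φ) : IsLocalRing A := by
  haveI : Nontrivial A := ι.domain_nontrivial
  refine IsLocalRing.of_isUnit_or_isUnit_one_sub_self fun a => ?_
  by_cases ha : φ a = 0
  · refine Or.inr (h.loc _ ?_)
    rw [map_sub, map_one, ha, sub_zero]
    exact one_ne_zero
  · exact Or.inl (h.loc a ha)

/-- the valuation subring of a place -/
def IsPl.V {E A k : Type} [Field E] [CommRing A] [Field k]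
    {ι : A →+* E} {φ : A →+* k} (h : IsPl ι φ) : ValuationSubring E :=
  { ι.range with mem_or_inv_mem' := h.val }

lemma IsPl.mem_V {E A k : Type} [Field E] [CommRing A] [Field k]
    {ι : A →+* E} {φ : A →+* k} (h : IsPl ι φ) {x : E} : x ∈ h.V ↔ ∃ a, ι a = x := Iff.rfl

/-- scaling a polynomial -/
lemma IsPl.exists_scale {E A k : Type} [Field E] [CommRing A] [Field k]
    {ι : A →+* E} {φ : A →+* k} (h : IsPl ι φ) {f : E[X]} (hf : f ≠ 0) :
    ∃ (c : E) (g : A[X]) (j : ℕ), g.map ι = C c * f ∧ g.coeff j = 1 := by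
  have h1 : f.support.Nonempty := nonempty_support_iff.2 hf
  obtain ⟨j, hj, hmax⟩ := Finset.exists_max_image f.support
    (fun i => h.V.valuation (f.coeff i)) h1
  have hj0 : f.coeff j ≠ 0 := mem_support_iff.1 hj
  have h2 : C (f.coeff j)⁻¹ * f ∈ lifts ι := by
    rw [lifts_iff_coeff_lifts]
    intro i
    rw [coeff_C_mul]
    by_cases hi : i ∈ f.support
    · have h3 : (f.coeff j)⁻¹ * f.coeff i ∈ h.V := by
        rw [← h.V.valuation_le_one_iff, map_mul, map_inv₀]
        have h4 : h.V.valuation (f.coeff j) ≠ 0 := (h.V.valuation.ne_zero_iff).2 hj0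
        rw [inv_mul_le_iff₀ (zero_lt_iff.2 h4), mul_one]
        exact hmax i hi
      exact h3
    · rw [notMem_support_iff.1 hi, mul_zero]
      exact ⟨0, map_zero _⟩
  obtain ⟨g, hg⟩ := h2
  refine ⟨_, g, j, hg, h.inj ?_⟩
  have h3 : (g.map ι).coeff j = 1 := by
    have : (mapRingHom ι g).coeff j = _ := congrArg (fun t => coeff t j) hg
    rw [coe_mapRingHom] at this
    rw [this, coeff_C_mul, inv_mul_cancel₀ hj0]
  rw [coeff_map] at h3
  rw [h3, map_one]

theorem IsPl.exists_dom {F E A k : Type} [Field F] [Field E] [Algebra F E] [Module.Finite F E]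
    [CommRing A] [IsLocalRing A] [Field k] {ι : A →+* F} {φ : A →+* k} (h : IsPl ι φ) :
    ∃ (B : ValuationSubring E) (g : A →+* B) (_ : IsLocalHom g),
      (∀ a, (g a : E) = algebraMap F E (ι a)) ∧
      ∀ e : IsLocalRing.ResidueField B, ∃ f : (IsLocalRing.ResidueField A)[X], f ≠ 0 ∧
        f.natDegree ≤ Module.finrank F E ∧ eval₂ (IsLocalRing.ResidueField.map g) e f = 0 := by
  let f : A →+* E := (algebraMap F E).comp ι
  have hf : Function.Injective f := (algebraMap F E).injective.comp h.inj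
  obtain ⟨B, hB, hloc⟩ := LocalSubring.exists_le_valuationSubring (LocalSubring.range f)
  have hfB : ∀ a, f a ∈ B := fun a => hB ⟨a, rfl⟩
  let g : A →+* B := f.codRestrict B hfB
  haveI hg : IsLocalHom g := by
    constructor
    intro a ha
    have h1 : IsUnit (Subring.inclusion hB ⟨f a, ⟨a, rfl⟩⟩) := ha
    have h2 := hloc.map_nonunit _ h1
    obtain ⟨⟨_, b, rfl⟩, hb⟩ := isUnit_iff_exists_inv.1 h2
    have h3 : f a * f b = 1 := congrArg Subtype.val hb
    rw [← map_mul, ← map_one f] at h3
    exact isUnit_iff_exists_inv.2 ⟨b, hf h3⟩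
  refine ⟨B, g, hg, fun a => rfl, ?_⟩
  intro e
  obtain ⟨x, rfl⟩ := IsLocalRing.residue_surjective e
  obtain ⟨c, G, j, hG, hj⟩ := h.exists_scale (minpoly.ne_zero (A := F)
    (Algebra.IsIntegral.isIntegral (R := F) (x : E)))
  refine ⟨G.map (IsLocalRing.residue A), ?_, ?_, ?_⟩
  · intro h0
    have := congrArg (fun t => coeff t j) h0
    simp only [coeff_map, hj, map_one, coeff_zero] at this
    exact one_ne_zero this
  · refine natDegree_map_le.trans ?_
    have h2 : (G.map ι).natDegree = G.natDegree := natDegree_map_eq_of_injective h.inj G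
    rw [← h2, hG]
    exact (natDegree_C_mul_le _ _).trans (minpoly.natDegree_le (x : E))
  · have h3 : eval₂ g x G = 0 := by
      apply Subtype.val_injective
      have h4 : B.subtype (eval₂ g x G) = eval₂ (B.subtype.comp g) (B.subtype x) G :=
        Polynomial.hom_eval₂ _ _ _ _
      refine h4.trans ?_
      have h5 : B.subtype.comp g = (algebraMap F E).comp ι := rfl
      rw [h5, ← eval₂_map, hG, ← aeval_def, map_mul]
      refine (congrArg _ (minpoly.aeval F (x : E))).trans ?_
      rw [mul_zero]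
      rfl
    rw [eval₂_map]
    have h6 : (IsLocalRing.ResidueField.map g).comp
        (IsLocalRing.residue A) = (IsLocalRing.residue B).comp g := rfl
    rw [h6, ← Polynomial.hom_eval₂, h3, map_zero]

theorem IsPl.finite_residue {E A k : Type} [Field E] [CommRing A] [IsLocalRing A] [Field k]
    [Finite k] {ι : A →+* E} {φ : A →+* k} (h : IsPl ι φ) :
    Finite (IsLocalRing.ResidueField A) := by
  haveI hφ : IsLocalHom φ := ⟨fun a ha => h.loc a ha.ne_zero⟩
  exact Finite.of_injective (IsLocalRing.ResidueField.lift φ) (RingHom.injective _)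

theorem HasPl.finite {F E : Type} [Field F] [Field E] [Algebra F E] [Module.Finite F E]
    (h : HasPl F) : HasPl E := by
  obtain ⟨A, _, k, _, ι, φ, hk, h⟩ := h
  haveI := h.isLocalRing
  haveI := h.finite_residue
  obtain ⟨B, g, hg, -, hB⟩ := h.exists_dom (E := E)
  letI : Algebra (IsLocalRing.ResidueField A) (IsLocalRing.ResidueField B) :=
    (IsLocalRing.ResidueField.map g).toAlgebra
  have h1 : (Set.univ : Set (IsLocalRing.ResidueField B)).Finite :=
    finite_of_forall_root (C := IsLocalRing.ResidueField A) (Module.finrank F E) _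
      fun e _ => hB e
  refine ⟨B, inferInstance, IsLocalRing.ResidueField B, inferInstance, B.subtype,
    IsLocalRing.residue B, Set.finite_univ_iff.1 h1, ?_, ?_, ?_⟩
  · exact Subtype.val_injective
  · intro x
    rcases B.mem_or_inv_mem x with h | h
    · exact Or.inl ⟨⟨x, h⟩, rfl⟩
    · exact Or.inr ⟨⟨_, h⟩, rfl⟩
  · intro a ha
    by_contra h0
    exact ha ((IsLocalRing.residue_eq_zero_iff _).2 h0)

theorem HasPl.of_finite {E : Type} [Field E] [Finite E] : HasPl E :=
  ⟨E, inferInstance, E, inferInstance, RingHom.id E, RingHom.id E, inferInstance,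
    ⟨fun _ _ h => h, fun x => Or.inl ⟨x, rfl⟩, fun _ h => isUnit_iff_ne_zero.2 h⟩⟩

theorem hasPl (F₀ E : Type) [Field F₀] [Finite F₀] [Field E] [Algebra F₀ E]
    [Algebra.EssFiniteType F₀ E] : HasPl E := by
  have key : HasPl (⊤ : IntermediateField F₀ E) := by
    refine IntermediateField.induction_on_adjoin_fg (F := F₀) (E := E)
      (fun K => HasPl K) ?_ ?_ ⊤ (IntermediateField.fg_top F₀ E)
    · haveI : Finite (⊥ : IntermediateField F₀ E) :=
        Finite.of_equiv F₀ (IntermediateField.botEquiv F₀ E).symm.toEquiv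
      exact HasPl.of_finite
    · intro K x ih
      by_cases hx : IsAlgebraic K x
      · haveI : FiniteDimensional K (IntermediateField.adjoin K {x}) :=
          IntermediateField.adjoin.finiteDimensional hx.isIntegral
        exact HasPl.finite (F := K) (E := IntermediateField.adjoin K {x}) ih
      · let φ := RatFunc.algEquivOfTranscendental (K := K) x hx
        exact HasPl.comap φ.symm.toRingEquiv.toRingHom ih.ratFunc
  exact HasPl.comap
    (IntermediateField.topEquiv (F := F₀) (E := E)).symm.toRingEquiv.toRingHom key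

end

end Pool.Agent.H920
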